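import Mathlib

set_option autoImplicit false
open Filter Topology

namespace Pool.Agent.Helper9.AlmostGolomb

/-- Window sum `a(n) + a(n-1) + ... + a(n-r+1)`. -/
def win (r : ℕ) (a : ℤ → ℤ) (n : ℤ) : ℤ := ∑ i ∈ Finset.range r, a (n - (i : ℤ))

/-- `a` is a nondecreasing sequence of positive integers, extended by `0` to `k ≤ 0`, which solves
the almost Golomb recurrence `a(a(n) + ... + a(n-r+1)) = n` for all `n ≥ 1`. -/
structure IsSolution (r : ℕ) (a : ℤ → ℤ) : Prop where
  zero : ∀ k : ℤ, k ≤ 0 → a k = 0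
  pos : ∀ n : ℤ, 1 ≤ n → 1 ≤ a n
  mono : ∀ m n : ℤ, 1 ≤ m → m ≤ n → a m ≤ a n
  rec_eq : ∀ n : ℤ, 1 ≤ n → a (win r a n) = n

/-- Greedy minimality: given the previous terms, `a n` is the smallest value that a solution of
the recurrence can take. -/
def IsGreedy (r : ℕ) (a : ℤ → ℤ) : Prop :=
  ∀ b : ℤ → ℤ, IsSolution r b → ∀ n : ℤ, (∀ m : ℤ, m < n → b m = a m) → a n ≤ b n

/-- The almost Golomb sequence of order `r`: the solution of the recurrence all of whose terms are
chosen as small as possible. -/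
def IsAlmostGolomb (r : ℕ) (a : ℤ → ℤ) : Prop := IsSolution r a ∧ IsGreedy r a

/-- `limsup a(n) / n`. -/
noncomputable def Lmax (a : ℤ → ℤ) : ℝ :=
  limsup (fun n : ℕ => (a (n : ℤ) : ℝ) / (n : ℝ)) atTop

end Pool.Agent.Helper9.AlmostGolomb
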