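import Mathlib
import Pool.Agent.Helper9.AlmostGolombDefs

set_option autoImplicit false
open Filter Topology

namespace Pool.Agent.Helper9.AlmostGolomb

namespace IsSolution

variable {r : ℕ} {a : ℤ → ℤ}

theorem nonneg (h : IsSolution r a) (n : ℤ) : 0 ≤ a n := by
  rcases le_or_gt n 0 with h0 | h0
  · rw [h.zero n h0]
  · have := h.pos n (by omega)
    omega

theorem monotone (h : IsSolution r a) : Monotone a := by
  intro m n hmn
  rcases le_or_gt m 0 with h0 | h0
  · rw [h.zero m h0]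
    exact h.nonneg n
  · exact h.mono m n (by omega) hmn

theorem win_mono (h : IsSolution r a) : Monotone (win r a) := by
  intro m n hmn
  unfold win
  exact Finset.sum_le_sum (fun i _ => h.monotone (by omega))

theorem le_of_le_win (h : IsSolution r a) {m n : ℤ} (hn : 1 ≤ n) (hm : m ≤ win r a n) :
    a m ≤ n := by
  have := h.monotone hm
  rwa [h.rec_eq n hn] at this

theorem le_of_win_le (h : IsSolution r a) {m n : ℤ} (hn : 1 ≤ n) (hm : win r a n ≤ m) :
    n ≤ a m := by
  have := h.monotone hm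
  rwa [h.rec_eq n hn] at this

theorem win_le (h : IsSolution r a) (n : ℤ) : win r a n ≤ r * a n := by
  unfold win
  have : ∑ i ∈ Finset.range r, a (n - (i : ℤ)) ≤ ∑ i ∈ Finset.range r, a n :=
    Finset.sum_le_sum (fun i _ => h.monotone (by omega))
  simpa using this

theorem le_win (h : IsSolution r a) (n : ℤ) : r * a (n + 1 - r) ≤ win r a n := by
  unfold win
  have : ∑ i ∈ Finset.range r, a (n + 1 - r) ≤ ∑ i ∈ Finset.range r, a (n - (i : ℤ)) := by
    refine Finset.sum_le_sum (fun i hi => h.monotone ?_)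
    have := Finset.mem_range.mp hi
    omega
  simpa using this

/-- For `1 ≤ n`, at most `n` summands of the window are nonzero. -/
theorem win_le' (h : IsSolution r a) (n : ℕ) : win r a n ≤ n * a n := by
  unfold win
  have h1 : ∑ i ∈ Finset.range r, a ((n : ℤ) - (i : ℤ)) ≤
      ∑ i ∈ Finset.range r, (if i < n then a n else 0) := by
    refine Finset.sum_le_sum (fun i _ => ?_)
    split_ifs with hi
    · exact h.monotone (by omega)
    · rw [h.zero _ (by omega)]
  have h2 : ∑ i ∈ Finset.range r, (if i < n then a n else 0) ≤ (n : ℤ) * a n := by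
    rw [← Finset.sum_filter, Finset.sum_const, nsmul_eq_mul]
    have h3 : ((Finset.range r).filter (fun i => i < n)).card ≤ n := by
      calc ((Finset.range r).filter (fun i => i < n)).card ≤ (Finset.range n).card := by
            apply Finset.card_le_card
            intro i hi
            rw [Finset.mem_filter] at hi
            exact Finset.mem_range.mpr hi.2
        _ = n := Finset.card_range n
    have h4 := h.nonneg n
    have h5 : (((Finset.range r).filter (fun i => i < n)).card : ℤ) ≤ n := by exact_mod_cast h3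
    exact mul_le_mul_of_nonneg_right h5 h4
  linarith

/-- `a m ≥ M` as soon as `m ≥ M^2`. -/
theorem le_of_sq_le (h : IsSolution r a) (M : ℕ) (m : ℤ) (hM : 1 ≤ M)
    (hm : (M : ℤ) ^ 2 ≤ m) : (M : ℤ) ≤ a m := by
  by_contra hlt
  push Not at hlt
  have hm1 : (1 : ℤ) ≤ M := by exact_mod_cast hM
  -- `a M ≤ a m`
  have h0 : (M : ℤ) ≤ m := by nlinarith
  have h1 : a M ≤ a m := h.monotone h0
  have h2 := h.win_le' M
  have h3 : win r a M ≤ m := by nlinarith
  have h4 := h.le_of_win_le hm1 h3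
  omega

theorem win_strict (h : IsSolution r a) {m n : ℤ} (hm : 1 ≤ m) (hmn : m < n) :
    win r a m < win r a n := by
  by_contra hle
  push Not at hle
  have h1 := h.monotone hle
  rw [h.rec_eq n (by omega), h.rec_eq m hm] at h1
  omega

theorem le_win_self (h : IsSolution r a) (n : ℕ) : (n : ℤ) + 1 ≤ win r a (n + 1) := by
  induction n with
  | zero =>
    have h1 := h.rec_eq 1 le_rfl
    by_contra hlt
    push Not at hlt
    have h2 : win r a (((0 : ℕ) : ℤ) + 1) = win r a 1 := by norm_num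
    rw [h2] at hlt
    have h3 : a (win r a 1) = 0 := h.zero _ (by push_cast at hlt; omega)
    omega
  | succ n ih =>
    have := h.win_strict (m := (n : ℤ) + 1) (n := ((n + 1 : ℕ) : ℤ) + 1) (by omega)
      (by push_cast; omega)
    push_cast at this ⊢
    omega

theorem le_self (h : IsSolution r a) (n : ℕ) : a n ≤ n := by
  rcases Nat.eq_zero_or_pos n with h0 | h0
  · subst h0
    rw [h.zero _ (by norm_num)]
    norm_num
  · obtain ⟨m, rfl⟩ : ∃ m, n = m + 1 := ⟨n - 1, by omega⟩
    have := h.le_win_self m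
    refine h.le_of_le_win (by push_cast; omega) ?_
    push_cast
    exact this

/-- Lower bound for the full window sum. -/
theorem le_win_of_sq_le (h : IsSolution r a) (M n : ℕ) (hM : 1 ≤ M)
    (hn : M ^ 2 ≤ n) (hnr : n ≤ r) : (M : ℤ) * ((n : ℤ) - (M : ℤ) ^ 2) ≤ win r a n := by
  unfold win
  have h1 : ∑ i ∈ Finset.range (n - M ^ 2), a ((n : ℤ) - (i : ℤ)) ≤
      ∑ i ∈ Finset.range r, a ((n : ℤ) - (i : ℤ)) := by
    apply Finset.sum_le_sum_of_subset_of_nonneg
    · apply Finset.range_subset_range.mpr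
      omega
    · intro i _ _
      exact h.nonneg _
  have h2 : ∑ i ∈ Finset.range (n - M ^ 2), (M : ℤ) ≤
      ∑ i ∈ Finset.range (n - M ^ 2), a ((n : ℤ) - (i : ℤ)) := by
    refine Finset.sum_le_sum (fun i hi => ?_)
    have hi' := Finset.mem_range.mp hi
    apply h.le_of_sq_le M _ hM
    have : i + M ^ 2 ≤ n := by omega
    have : (i : ℤ) + (M : ℤ) ^ 2 ≤ n := by exact_mod_cast this
    linarith
  rw [Finset.sum_const, Finset.card_range, nsmul_eq_mul] at h2
  have h3 : ((n - M ^ 2 : ℕ) : ℤ) = (n : ℤ) - (M : ℤ) ^ 2 := by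
    push_cast [Nat.cast_sub hn]
    ring
  rw [h3] at h2
  linarith

/-- The main estimate. -/
theorem main_bound (h : IsSolution r a) (K : ℕ) (hK : 1 ≤ K) (hr : 3000 * K ^ 4 ≤ r) :
    ∀ N : ℕ, r ≤ N → (K : ℤ) * (a N + 4) ≤ N ∧ (K : ℤ) * ((N : ℤ) + r + 4) ≤ r * a N := by
  -- size facts
  have hK1 : K ≤ K ^ 4 := Nat.le_self_pow (by norm_num) K
  have hK2 : K ^ 2 ≤ K ^ 4 := Nat.pow_le_pow_right hK (by norm_num)
  have hK3 : K ^ 3 ≤ K ^ 4 := Nat.pow_le_pow_right hK (by norm_num)
  have hK0 : 1 ≤ K ^ 4 := Nat.one_le_pow _ _ hK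
  have hKZ : (1 : ℤ) ≤ K := by exact_mod_cast hK
  have hK2Z : (1 : ℤ) ≤ (K : ℤ) ^ 2 := by nlinarith
  have hKK2 : (K : ℤ) ≤ (K : ℤ) ^ 2 := by nlinarith
  have hrZ : 3000 * (K : ℤ) ^ 4 ≤ r := by exact_mod_cast hr
  have hK1Z : (K : ℤ) ≤ (K : ℤ) ^ 4 := by exact_mod_cast hK1
  have hK2Z' : (K : ℤ) ^ 2 ≤ (K : ℤ) ^ 4 := by exact_mod_cast hK2
  have hK3Z : (K : ℤ) ^ 3 ≤ (K : ℤ) ^ 4 := by exact_mod_cast hK3
  have hK0Z : (1 : ℤ) ≤ (K : ℤ) ^ 4 := by exact_mod_cast hK0
  have hr1 : (1 : ℤ) ≤ r := by linarith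
  -- `a r ≥ 22 K^2 + 3`
  have har : 22 * (K : ℤ) ^ 2 + 3 ≤ a r := by
    have := h.le_of_sq_le (22 * K ^ 2 + 3) r (by omega) (by
      push_cast
      nlinarith)
    push_cast at this
    exact this
  -- `S r ≥ K (2 r + 4)`
  have hSr : (K : ℤ) * (2 * r + 4) ≤ win r a r := by
    have h1 := h.le_win_of_sq_le (4 * K) r (by omega) (by nlinarith) le_rfl
    push_cast at h1
    nlinarith
  -- `4 K a(2r) ≤ r`
  have hA : 4 * (K : ℤ) * a (2 * r) ≤ r := by
    let q : ℕ := r / (4 * K)
    have hq1 : 4 * K * q ≤ r := Nat.mul_div_le r (4 * K)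
    have hq2 : r < 4 * K * q + 4 * K := by
      have := Nat.lt_mul_div_succ r (b := 4 * K) (by omega)
      calc r < 4 * K * (r / (4 * K) + 1) := this
        _ = 4 * K * q + 4 * K := by ring
    have hq3 : 256 * K ^ 2 ≤ q := by
      by_contra hlt
      push Not at hlt
      have : q + 1 ≤ 256 * K ^ 2 := hlt
      have : 4 * K * (q + 1) ≤ 4 * K * (256 * K ^ 2) := Nat.mul_le_mul_left _ this
      have h5 : 4 * K * (256 * K ^ 2) = 1024 * K ^ 3 := by ring
      have h6 : 4 * K * (q + 1) = 4 * K * q + 4 * K := by ring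
      omega
    have hqr : q ≤ r := Nat.div_le_self _ _
    have h1 := h.le_win_of_sq_le (16 * K) q (by omega) (by nlinarith) hqr
    have hq1Z : 4 * (K : ℤ) * q ≤ r := by exact_mod_cast hq1
    have hq2Z : (r : ℤ) < 4 * (K : ℤ) * q + 4 * K := by exact_mod_cast hq2
    have h2 : 2 * (r : ℤ) ≤ win r a q := by
      push_cast at h1
      have e : 16 * (K : ℤ) * ((q : ℤ) - (16 * (K : ℤ)) ^ 2) =
        4 * (4 * (K : ℤ) * q) - 4096 * (K : ℤ) ^ 3 := by ring
      rw [e] at h1
      linarith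
    have hq0 : 1 ≤ q := by
      have : 1 ≤ K ^ 2 := Nat.one_le_pow _ _ hK
      omega
    have h3 := h.le_of_le_win (by exact_mod_cast hq0) h2
    calc 4 * (K : ℤ) * a (2 * r) ≤ 4 * (K : ℤ) * q := by
          apply mul_le_mul_of_nonneg_left h3
          positivity
      _ ≤ r := hq1Z
  intro N
  induction N using Nat.strong_induction_on with
  | _ N ih =>
  intro hrN
  obtain ⟨n, hn⟩ : ∃ n : ℕ, a N = n := ⟨(a N).toNat, (Int.toNat_of_nonneg (h.nonneg _)).symm⟩
  have hrNZ : (r : ℤ) ≤ N := by exact_mod_cast hrN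
  have harN : a r ≤ a N := h.monotone hrNZ
  have hn22 : 22 * (K : ℤ) ^ 2 + 3 ≤ n := by linarith
  have hnN : n ≤ N := by
    have := h.le_self N
    rw [hn] at this
    exact_mod_cast this
  have hn1 : (1 : ℤ) ≤ n := by linarith
  have hn4 : 4 ≤ n := by
    have : (25 : ℤ) ≤ n := by linarith
    have : 25 ≤ n := by exact_mod_cast this
    omega
  -- sandwich
  have hlow : win r a ((n : ℤ) - 1) + 1 ≤ N := by
    by_contra hlt
    push Not at hlt
    have := h.le_of_le_win (m := N) (n := (n : ℤ) - 1) (by omega) (by omega)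
    omega
  have hup : (N : ℤ) + 1 ≤ win r a ((n : ℤ) + 1) := by
    by_contra hlt
    push Not at hlt
    have := h.le_of_win_le (m := N) (n := (n : ℤ) + 1) (by omega) (by omega)
    omega
  rw [hn]
  rcases le_or_gt (2 * r) n with hcase | hcase
  · -- inductive case
    obtain ⟨k, hk⟩ : ∃ k : ℕ, n = k + r := ⟨n - r, by omega⟩
    have hr0 : 0 < r := by
      have : (0 : ℤ) < r := by linarith
      exact_mod_cast this
    have hPk := ih k (by omega) (by omega)
    have hU : (K : ℤ) * ((n : ℤ) + 4) + 1 ≤ N := by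
      have h1 := h.le_win ((n : ℤ) - 1)
      have e : (n : ℤ) - 1 + 1 - r = k := by
        rw [hk]; push_cast; ring
      rw [e] at h1
      have h2 := hPk.2
      have e2 : (k : ℤ) + r + 4 = (n : ℤ) + 4 := by rw [hk]; push_cast; ring
      rw [e2] at h2
      linarith
    have hlt : n + 1 < N := by
      have : (n : ℤ) + 4 ≤ (K : ℤ) * ((n : ℤ) + 4) := by nlinarith
      have : (n : ℤ) + 1 < N := by linarith
      exact_mod_cast this
    have hPn := ih (n + 1) hlt (by omega)
    refine ⟨by linarith, ?_⟩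
    have h1 := h.win_le ((n : ℤ) + 1)
    have h2 := hPn.1
    push_cast at h2
    have h3 : (N : ℤ) + 1 ≤ r * a ((n : ℤ) + 1) := by linarith
    have h4 : (r : ℤ) * (K * (a ((n : ℤ) + 1) + 4)) ≤ r * ((n : ℤ) + 1) :=
      mul_le_mul_of_nonneg_left h2 (by linarith)
    have h5 : (K : ℤ) * ((N : ℤ) + 1) ≤ K * (r * a ((n : ℤ) + 1)) :=
      mul_le_mul_of_nonneg_left h3 (by linarith)
    have h6 : (1 : ℤ) * r ≤ K * r := mul_le_mul_of_nonneg_right hKZ (by linarith)
    have h7 : (K : ℤ) * 4 ≤ K * r := by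
      apply mul_le_mul_of_nonneg_left _ (by linarith)
      linarith
    have e1 : (r : ℤ) * (K * (a ((n : ℤ) + 1) + 4)) =
      K * (r * a ((n : ℤ) + 1)) + 4 * (K * r) := by ring
    have e2 : (K : ℤ) * ((N : ℤ) + r + 4) = K * ((N : ℤ) + 1) + K * r + 3 * K := by ring
    linarith
  · -- base case
    have hcaseZ : (n : ℤ) + 1 ≤ 2 * r := by
      have : n + 1 ≤ 2 * r := hcase
      exact_mod_cast this
    have haA : a ((n : ℤ) + 1) ≤ a (2 * r) := h.monotone hcaseZ
    have hA0 : 0 ≤ a (2 * r) := h.nonneg _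
    constructor
    · rcases le_or_gt n (r + 1) with h1 | h1
      · -- `n - 1 ≤ r`
        have hn' : 22 * K ^ 2 + 3 ≤ n := by exact_mod_cast hn22
        have e16 : (4 * K) ^ 2 = 16 * K ^ 2 := by ring
        have h2 := h.le_win_of_sq_le (4 * K) (n - 1) (by omega) (by omega) (by omega)
        have e : ((n - 1 : ℕ) : ℤ) = (n : ℤ) - 1 := by omega
        rw [e] at h2
        push_cast at h2
        have h3 : (K : ℤ) * ((n : ℤ) + 4) ≤ 4 * (K : ℤ) * ((n : ℤ) - 1 - (4 * (K : ℤ)) ^ 2) := by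
          have h4 : (n : ℤ) + 4 ≤ 4 * ((n : ℤ) - 1 - 16 * (K : ℤ) ^ 2) := by
            linarith
          have h5 : (K : ℤ) * ((n : ℤ) + 4) ≤ K * (4 * ((n : ℤ) - 1 - 16 * (K : ℤ) ^ 2)) :=
            mul_le_mul_of_nonneg_left h4 (by linarith)
          calc (K : ℤ) * ((n : ℤ) + 4) ≤ K * (4 * ((n : ℤ) - 1 - 16 * (K : ℤ) ^ 2)) := h5
            _ = 4 * (K : ℤ) * ((n : ℤ) - 1 - (4 * (K : ℤ)) ^ 2) := by ring
        linarith
      · -- `r < n - 1`
        have h2 : win r a r ≤ win r a ((n : ℤ) - 1) := h.win_mono (by omega)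
        have h3 : (K : ℤ) * ((n : ℤ) + 4) ≤ K * (2 * r + 4) := by
          apply mul_le_mul_of_nonneg_left _ (by linarith)
          linarith
        linarith
    · rcases le_or_gt (n + 1) r with h1 | h1
      · have h2 := h.win_le' (n + 1)
        push_cast at h2
        have h3 : ((n : ℤ) + 1) * a ((n : ℤ) + 1) ≤ ((n : ℤ) + 1) * a (2 * r) :=
          mul_le_mul_of_nonneg_left haA (by linarith)
        have h4 : (4 * (K : ℤ) * a (2 * r)) * ((n : ℤ) + 1) ≤ r * ((n : ℤ) + 1) :=
          mul_le_mul_of_nonneg_right hA (by linarith)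
        have h5 : (N : ℤ) + 1 ≤ ((n : ℤ) + 1) * a (2 * r) := by linarith
        have h6 : (K : ℤ) * ((N : ℤ) + 1) ≤ K * (((n : ℤ) + 1) * a (2 * r)) :=
          mul_le_mul_of_nonneg_left h5 (by linarith)
        have h7 : 4 * ((K : ℤ) * (r + 3)) ≤ r * (3 * (n : ℤ) - 1) := by
          have h8 : (16 : ℤ) * K ≤ 3 * n - 1 := by linarith
          have h9 : (r : ℤ) * (16 * K) ≤ r * (3 * n - 1) :=
            mul_le_mul_of_nonneg_left h8 (by linarith)
          have h10 : (K : ℤ) * (r + 3) ≤ K * (4 * r) :=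
            mul_le_mul_of_nonneg_left (by linarith) (by linarith)
          have e1 : (r : ℤ) * (16 * K) = 4 * (K * (4 * r)) := by ring
          linarith
        have e2 : (4 * (K : ℤ) * a (2 * r)) * ((n : ℤ) + 1) =
          4 * (K * (((n : ℤ) + 1) * a (2 * r))) := by ring
        have e3 : (K : ℤ) * ((N : ℤ) + r + 4) = K * ((N : ℤ) + 1) + K * (r + 3) := by ring
        have e4 : (r : ℤ) * (3 * (n : ℤ) - 1) = 4 * (r * n) - r * ((n : ℤ) + 1) := by ring
        linarith
      · have h2 := h.win_le ((n : ℤ) + 1)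
        have h3 : (r : ℤ) * a ((n : ℤ) + 1) ≤ r * a (2 * r) :=
          mul_le_mul_of_nonneg_left haA (by linarith)
        have h4 : (4 * (K : ℤ) * a (2 * r)) * r ≤ r * r :=
          mul_le_mul_of_nonneg_right hA (by linarith)
        have h5 : (N : ℤ) + 1 ≤ r * a (2 * r) := by linarith
        have h6 : (K : ℤ) * ((N : ℤ) + 1) ≤ K * (r * a (2 * r)) :=
          mul_le_mul_of_nonneg_left h5 (by linarith)
        have hrn : (r : ℤ) ≤ n := by
          have : r ≤ n := by omega
          exact_mod_cast this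
        have h7 : (r : ℤ) * r ≤ r * n := mul_le_mul_of_nonneg_left hrn (by linarith)
        have h8 : 4 * ((K : ℤ) * (r + 3)) ≤ 3 * (r * n) := by
          have h9 : (16 : ℤ) * K ≤ 3 * n := by linarith
          have h10 : (r : ℤ) * (16 * K) ≤ r * (3 * n) :=
            mul_le_mul_of_nonneg_left h9 (by linarith)
          have h11 : (K : ℤ) * (r + 3) ≤ K * (4 * r) :=
            mul_le_mul_of_nonneg_left (by linarith) (by linarith)
          have e1 : (r : ℤ) * (16 * K) = 4 * (K * (4 * r)) := by ring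
          linarith
        have e2 : (4 * (K : ℤ) * a (2 * r)) * r = 4 * (K * (r * a (2 * r))) := by ring
        have e3 : (K : ℤ) * ((N : ℤ) + r + 4) = K * ((N : ℤ) + 1) + K * (r + 3) := by ring
        linarith

end IsSolution

end Pool.Agent.Helper9.AlmostGolomb
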