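import Mathlib
import Pool.Agent.Helper9.AlmostGolomb

set_option autoImplicit false
open Filter Topology

namespace Pool.Agent.Helper9.AlmostGolomb

/-- Window sum over the naturals (truncated subtraction, used with `f 0 = 0`). -/
def W (r : ℕ) (f : ℕ → ℕ) (k : ℕ) : ℕ := ∑ i ∈ Finset.range r, f (k - i)

theorem W_succ (r : ℕ) (f : ℕ → ℕ) (k : ℕ) :
    W r f (k + 1) + f (k + 1 - r) = W r f k + f (k + 1) := by
  unfold W
  rw [← Finset.sum_range_succ (fun i => f (k + 1 - i)), Finset.sum_range_succ']
  simp only [Nat.add_sub_add_right, Nat.sub_zero]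

theorem W_zero (r : ℕ) (f : ℕ → ℕ) (h0 : f 0 = 0) : W r f 0 = 0 := by
  unfold W
  simp [h0]

/-- The greedy rule. -/
def nxt (r n : ℕ) (f : ℕ → ℕ) : ℕ :=
  if n = 0 then 1 else if n = 1 then 2
  else if f n = f (n + 1 - r) ∨ (f n + 1 ≤ n ∧ W r f (f n + 1) = n + 1) then f n + 1 else f n

/-- Table of the greedy sequence up to index `n`. -/
def tab (r : ℕ) : ℕ → ℕ → ℕ
  | 0 => fun _ => 0
  | n + 1 => Function.update (tab r n) (n + 1) (nxt r n (tab r n))

/-- The greedy sequence. -/
def gr (r n : ℕ) : ℕ := tab r n n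

theorem tab_eq (r n m : ℕ) (h : m ≤ n) : tab r n m = gr r m := by
  induction n with
  | zero =>
    have : m = 0 := by omega
    subst this
    rfl
  | succ n ih =>
    by_cases hm : m = n + 1
    · subst hm; rfl
    · rw [← ih (by omega)]
      simp only [tab]
      rw [Function.update_of_ne hm]

theorem W_congr (r : ℕ) (f g : ℕ → ℕ) (k : ℕ) (h : ∀ m ≤ k, f m = g m) :
    W r f k = W r g k := by
  unfold W
  exact Finset.sum_congr rfl (fun i _ => h _ (Nat.sub_le _ _))

theorem gr_zero (r : ℕ) : gr r 0 = 0 := rfl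

theorem gr_one (r : ℕ) : gr r 1 = 1 := by
  simp [gr, tab, nxt]

theorem gr_two (r : ℕ) : gr r 2 = 2 := by
  simp [gr, tab, nxt]

theorem gr_succ (r : ℕ) (hr : 1 ≤ r) (n : ℕ) (hn : 2 ≤ n) :
    gr r (n + 1) = if gr r n = gr r (n + 1 - r) ∨
      (gr r n + 1 ≤ n ∧ W r (gr r) (gr r n + 1) = n + 1) then gr r n + 1 else gr r n := by
  have h1 : gr r (n + 1) = nxt r n (tab r n) := by
    simp only [gr, tab]
    rw [Function.update_self]
  rw [h1]
  unfold nxt
  rw [if_neg (by omega), if_neg (by omega), tab_eq r n n le_rfl,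
    tab_eq r n (n + 1 - r) (by omega)]
  have h2 : (gr r n + 1 ≤ n ∧ W r (tab r n) (gr r n + 1) = n + 1) ↔
      (gr r n + 1 ≤ n ∧ W r (gr r) (gr r n + 1) = n + 1) := by
    refine and_congr_right (fun h => ?_)
    rw [W_congr r (tab r n) (gr r) _ (fun m hm => tab_eq r n m (by omega))]
  simp only [h2]

theorem gr_three (r : ℕ) (hr : 2 ≤ r) : gr r 3 = 2 := by
  rw [gr_succ r (by omega) 2 le_rfl, gr_two]
  rw [if_neg]
  rintro (h | h)
  · rcases (show 2 + 1 - r = 0 ∨ 2 + 1 - r = 1 by omega) with h1 | h1
    · rw [h1, gr_zero] at h; omega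
    · rw [h1, gr_one] at h; omega
  · omega

theorem gr_step (r : ℕ) (hr : 1 ≤ r) (n : ℕ) :
    gr r n ≤ gr r (n + 1) ∧ gr r (n + 1) ≤ gr r n + 1 := by
  rcases (show n = 0 ∨ n = 1 ∨ 2 ≤ n by omega) with h | h | h
  · subst h; rw [gr_zero, gr_one]; omega
  · subst h; rw [gr_one, gr_two]; omega
  · rw [gr_succ r hr n h]
    split_ifs <;> omega

theorem gr_mono (r : ℕ) (hr : 1 ≤ r) : Monotone (gr r) :=
  monotone_nat_of_le_succ (fun n => (gr_step r hr n).1)

theorem gr_add (r : ℕ) (hr : 1 ≤ r) (n k : ℕ) : gr r (n + k) ≤ gr r n + k := by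
  induction k with
  | zero => simp
  | succ k ih =>
    have := (gr_step r hr (n + k)).2
    rw [← add_assoc]
    omega

theorem gr_sub (r : ℕ) (hr : 1 ≤ r) (n : ℕ) : gr r n ≤ gr r (n - r) + r := by
  rcases le_or_gt r n with h | h
  · have := gr_add r hr (n - r) r
    rwa [Nat.sub_add_cancel h] at this
  · have h1 : n - r = 0 := by omega
    have := gr_add r hr 0 n
    rw [h1]
    rw [zero_add] at this
    omega

theorem gr_le (r : ℕ) (hr : 2 ≤ r) (n : ℕ) (hn : 3 ≤ n) : gr r n + 1 ≤ n := by
  have := gr_add r (by omega) 3 (n - 3)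
  rw [gr_three r hr, Nat.add_sub_cancel' hn] at this
  omega

theorem gr_inv (r : ℕ) (hr : 2 ≤ r) : ∀ n : ℕ, 1 ≤ n →
    W r (gr r) (gr r n - 1) < n ∧ n < W r (gr r) (gr r n + 1) ∧ gr r (n - r) < gr r n := by
  have hW0 : W r (gr r) 0 = 0 := W_zero r _ (gr_zero r)
  have hW1 : W r (gr r) 1 = 1 := by
    have := W_succ r (gr r) 0
    rw [show 0 + 1 - r = 0 by omega, gr_zero, hW0] at this
    simp only [zero_add, gr_one] at this
    omega
  have hW2 : W r (gr r) 2 = 3 := by
    have := W_succ r (gr r) 1
    rw [show 1 + 1 - r = 0 by omega, gr_zero, hW1] at this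
    norm_num [gr_two] at this
    omega
  have h3r : gr r (3 - r) ≤ 1 := by
    have := gr_mono r (by omega) (show 3 - r ≤ 1 by omega)
    rwa [gr_one] at this
  have hW3 : 4 ≤ W r (gr r) 3 := by
    have := W_succ r (gr r) 2
    rw [hW2] at this
    norm_num [gr_three r hr] at this
    omega
  intro n
  induction n using Nat.strong_induction_on with
  | _ N ih =>
  intro hN
  rcases (show N = 1 ∨ N = 2 ∨ N = 3 ∨ 4 ≤ N by omega) with h | h | h | h
  · subst h
    rw [gr_one, show 1 - r = 0 by omega, gr_zero]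
    norm_num [hW0, hW2]
  · subst h
    rw [gr_two, show 2 - r = 0 by omega, gr_zero]
    norm_num [hW1]
    omega
  · subst h
    rw [gr_three r hr]
    norm_num [hW1]
    omega
  · obtain ⟨n, rfl⟩ : ∃ n, N = n + 1 := ⟨N - 1, by omega⟩
    have hn3 : 3 ≤ n := by omega
    have hle := gr_le r hr n hn3
    have hv2 : 2 ≤ gr r n := by
      have := gr_mono r (by omega) hn3
      rwa [gr_three r hr] at this
    have hsucc := gr_succ r (by omega) n (by omega)
    have ihn := ih n (by omega) (by omega)
    have hmon : gr r (n + 1 - r) ≤ gr r n := gr_mono r (by omega) (by omega)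
    -- run length at `n + 1`
    have hRL : gr r (n + 1 - r) < gr r (n + 1) := by
      rw [hsucc]
      split_ifs with hc
      · omega
      · push Not at hc
        have := hc.1
        omega
    -- strictness of the window sum
    have hstrict : W r (gr r) (gr r n + 1) < W r (gr r) (gr r n + 2) := by
      have h1 := W_succ r (gr r) (gr r n + 1)
      have h2 : gr r (gr r n + 1 + 1 - r) < gr r (gr r n + 1 + 1) := by
        rcases eq_or_lt_of_le (show gr r n + 1 + 1 ≤ n + 1 by omega) with h3 | h3
        · rw [h3]; exact hRL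
        · exact (ih (gr r n + 1 + 1) h3 (by omega)).2.2
      have e : gr r n + 2 = gr r n + 1 + 1 := rfl
      rw [e]
      omega
    by_cases hA : gr r n = gr r (n + 1 - r)
    · -- run length exhausted
      have hval : gr r (n + 1) = gr r n + 1 := by
        rw [hsucc, if_pos (Or.inl hA)]
      have hp : 1 ≤ n + 1 - r := by
        by_contra hp
        have : n + 1 - r = 0 := by omega
        rw [this, gr_zero] at hA
        omega
      have ihp := ih (n + 1 - r) (by omega) hp
      rw [← hA] at ihp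
      have h1 := W_succ r (gr r) (gr r n - 1)
      have h2 := gr_sub r (by omega) (gr r n)
      rw [Nat.sub_add_cancel (by omega)] at h1
      rw [hval]
      refine ⟨?_, ?_, by rw [← hval]; exact hRL⟩
      · rw [Nat.add_sub_cancel]
        omega
      · have e : gr r n + 1 + 1 = gr r n + 2 := rfl
        rw [e]
        omega
    · by_cases hB : W r (gr r) (gr r n + 1) = n + 1
      · have hval : gr r (n + 1) = gr r n + 1 := by
          rw [hsucc, if_pos (Or.inr ⟨hle, hB⟩)]
        rw [hval]
        refine ⟨?_, ?_, by rw [← hval]; exact hRL⟩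
        · rw [Nat.add_sub_cancel]
          have h1 := W_succ r (gr r) (gr r n)
          have h2 : gr r (gr r n + 1 - r) < gr r (gr r n + 1) :=
            (ih (gr r n + 1) (by omega) (by omega)).2.2
          omega
        · have e : gr r n + 1 + 1 = gr r n + 2 := rfl
          rw [e]
          omega
      · have hval : gr r (n + 1) = gr r n := by
          rw [hsucc, if_neg]
          rintro (h | h)
          · exact hA h
          · exact hB h.2
        rw [hval]
        refine ⟨by omega, by omega, by rw [← hval]; exact hRL⟩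

theorem gr_W_strict (r : ℕ) (hr : 2 ≤ r) : StrictMono (W r (gr r)) := by
  apply strictMono_nat_of_lt_succ
  intro k
  have h1 := W_succ r (gr r) k
  have h2 := (gr_inv r hr (k + 1) (by omega)).2.2
  omega

theorem gr_rec (r : ℕ) (hr : 2 ≤ r) (k : ℕ) (hk : 1 ≤ k) : gr r (W r (gr r) k) = k := by
  have hs := gr_W_strict r hr
  have h1 : 1 ≤ W r (gr r) k := le_trans hk (hs.le_apply)
  obtain ⟨h2, h3, _⟩ := gr_inv r hr _ h1
  have h4 := hs.lt_iff_lt.mp h2
  have h5 := hs.lt_iff_lt.mp h3
  omega

/-- The greedy sequence on the integers. -/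
def grZ (r : ℕ) (n : ℤ) : ℤ := (gr r n.toNat : ℤ)

theorem win_grZ (r : ℕ) (n : ℕ) : win r (grZ r) (n : ℤ) = (W r (gr r) n : ℤ) := by
  unfold win W grZ
  push_cast
  refine Finset.sum_congr rfl (fun i _ => ?_)
  rw [Int.toNat_sub]

theorem grZ_isSolution (r : ℕ) (hr : 2 ≤ r) : IsSolution r (grZ r) where
  zero := by
    intro k hk
    unfold grZ
    rw [Int.toNat_of_nonpos hk, gr_zero]
    rfl
  pos := by
    intro n hn
    unfold grZ
    have : gr r 1 ≤ gr r n.toNat := gr_mono r (by omega) (by omega)
    rw [gr_one] at this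
    exact_mod_cast this
  mono := by
    intro m n _ hmn
    unfold grZ
    exact_mod_cast gr_mono r (by omega) (Int.toNat_le_toNat hmn)
  rec_eq := by
    intro n hn
    obtain ⟨k, rfl⟩ : ∃ k : ℕ, n = k := ⟨n.toNat, by omega⟩
    rw [win_grZ]
    unfold grZ
    rw [Int.toNat_natCast, gr_rec r hr k (by omega)]

theorem win_succ (r : ℕ) (b : ℤ → ℤ) (n : ℤ) :
    win r b (n + 1) + b (n + 1 - r) = win r b n + b (n + 1) := by
  unfold win
  rw [← Finset.sum_range_succ (fun i : ℕ => b (n + 1 - (i : ℤ))), Finset.sum_range_succ']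
  simp only [Nat.cast_add, Nat.cast_one, Nat.cast_zero, sub_zero]
  congr 1
  refine Finset.sum_congr rfl (fun i _ => ?_)
  congr 1
  ring

theorem grZ_isGreedy (r : ℕ) (hr : 2 ≤ r) : IsGreedy r (grZ r) := by
  intro b hb n hn
  rcases le_or_gt n 0 with h0 | h0
  · rw [(grZ_isSolution r hr).zero n h0, hb.zero n h0]
  obtain ⟨N, rfl⟩ : ∃ N : ℕ, n = N := ⟨n.toNat, by omega⟩
  have hN0 : 1 ≤ N := by omega
  have hb1 := hb.pos 1 le_rfl
  rcases (show N = 1 ∨ N = 2 ∨ N = 3 ∨ 4 ≤ N by omega) with h | h | h | h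
  · subst h
    have : grZ r ((1 : ℕ) : ℤ) = 1 := by
      unfold grZ; rw [Int.toNat_natCast, gr_one]; rfl
    rw [this]
    exact hb1
  · subst h
    have e2 : grZ r ((2 : ℕ) : ℤ) = 2 := by
      unfold grZ; rw [Int.toNat_natCast, gr_two]; rfl
    rw [e2]
    by_contra hlt
    push Not at hlt
    have hb2 : b 1 ≤ b 2 := hb.mono 1 2 le_rfl (by norm_num)
    have hlt' : b 2 < 2 := hlt
    have hb2' : b 2 = 1 := by omega
    have hb1' : b 1 = 1 := by omega
    -- win r b 2 = 2
    have hw0 : win r b 0 = 0 := by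
      unfold win
      apply Finset.sum_eq_zero
      intro i _
      exact hb.zero _ (by omega)
    have hw1 := win_succ r b 0
    have hw2 := win_succ r b 1
    rw [hb.zero (0 + 1 - r) (by omega), hw0] at hw1
    rw [hb.zero (1 + 1 - r) (by omega)] at hw2
    norm_num at hw1 hw2
    rw [hw1, hb1', hb2'] at hw2
    have h3 := hb.rec_eq 2 (by norm_num)
    rw [hw2] at h3
    norm_num at h3
    omega
  · subst h
    have e2 : grZ r ((2 : ℕ) : ℤ) = 2 := by
      unfold grZ; rw [Int.toNat_natCast, gr_two]; rfl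
    have e3 : grZ r ((3 : ℕ) : ℤ) = 2 := by
      unfold grZ; rw [Int.toNat_natCast, gr_three r hr]; rfl
    have h2 := hn 2 (by norm_num)
    have e2' : grZ r 2 = 2 := e2
    rw [e2'] at h2
    have h3 : b 2 ≤ b 3 := hb.mono 2 3 (by norm_num) (by norm_num)
    rw [e3]
    have : b ((3 : ℕ) : ℤ) = b 3 := rfl
    rw [this]
    omega
  · obtain ⟨k, rfl⟩ : ∃ k, N = k + 1 := ⟨N - 1, by omega⟩
    have hk3 : 3 ≤ k := by omega
    have hval : ∀ m : ℕ, m ≤ k → b m = (gr r m : ℤ) := by
      intro m hm
      have := hn m (by push_cast; omega)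
      rw [this]
      unfold grZ
      rw [Int.toNat_natCast]
    have hgoal : grZ r ((k + 1 : ℕ) : ℤ) = (gr r (k + 1) : ℤ) := by
      unfold grZ; rw [Int.toNat_natCast]
    rw [hgoal, gr_succ r (by omega) k (by omega)]
    have hmono : b k ≤ b ((k + 1 : ℕ) : ℤ) := hb.mono _ _ (by omega) (by push_cast; omega)
    have hbk := hval k le_rfl
    split_ifs with hc
    · rcases hc with hc | ⟨hc1, hc2⟩
      · -- run length exhausted
        by_contra hlt
        push Not at hlt
        have h1 : b ((k + 1 : ℕ) : ℤ) = (gr r k : ℤ) := by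
          push_cast at hlt hmono ⊢
          omega
        have h2 : b ((k : ℤ) + 1 - r) = (gr r k : ℤ) := by
          rcases le_or_gt r (k + 1) with h3 | h3
          · have h4 := hval (k + 1 - r) (by omega)
            rw [← hc] at h4
            rw [← h4]
            congr 1
            omega
          · have : k + 1 - r = 0 := by omega
            rw [this, gr_zero] at hc
            have : 2 ≤ gr r k := by
              have := gr_mono r (by omega) hk3
              rwa [gr_three r hr] at this
            omega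
        have h3 := win_succ r b k
        rw [h2] at h3
        push_cast at h1
        rw [h1] at h3
        have h4 : win r b ((k : ℤ) + 1) = win r b k := by omega
        have h5 := hb.rec_eq ((k : ℤ) + 1) (by omega)
        have h6 := hb.rec_eq k (by omega)
        rw [h4, h6] at h5
        omega
      · -- deadline
        have h1 : win r b ((gr r k + 1 : ℕ) : ℤ) = (W r (gr r) (gr r k + 1) : ℤ) := by
          rw [← win_grZ]
          unfold win
          refine Finset.sum_congr rfl (fun i _ => ?_)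
          apply hn
          push_cast
          omega
        rw [hc2] at h1
        have h2 := hb.rec_eq ((gr r k + 1 : ℕ) : ℤ) (by push_cast; omega)
        rw [h1] at h2
        rw [h2]
    · rw [← hbk]
      exact hmono

/-- For the greedy sequence, `n ≥ 3` is the value at `m` only once `m` has reached the window
sum of `n`. -/
theorem gr_W_le (r : ℕ) (hr : 2 ≤ r) (n : ℕ) (hn : 3 ≤ n) : W r (gr r) (gr r n) ≤ n := by
  have hW0 : W r (gr r) 0 = 0 := W_zero r _ (gr_zero r)
  have hW1 : W r (gr r) 1 = 1 := by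
    have := W_succ r (gr r) 0
    rw [show 0 + 1 - r = 0 by omega, gr_zero, hW0] at this
    simp only [zero_add, gr_one] at this
    omega
  have hW2 : W r (gr r) 2 = 3 := by
    have := W_succ r (gr r) 1
    rw [show 1 + 1 - r = 0 by omega, gr_zero, hW1] at this
    norm_num [gr_two] at this
    omega
  have hW3 : W r (gr r) 3 ≤ r + 2 := by
    have h1 := W_succ r (gr r) 2
    rw [hW2] at h1
    norm_num [gr_three r hr] at h1
    rcases (show r = 2 ∨ 3 ≤ r by omega) with h | h
    · subst h
      norm_num [gr_one] at h1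
      omega
    · omega
  induction n using Nat.strong_induction_on with
  | _ N ih =>
  rcases (show N = 3 ∨ 4 ≤ N by omega) with h | h
  · subst h
    rw [gr_three r hr, hW2]
  · obtain ⟨n, rfl⟩ : ∃ n, N = n + 1 := ⟨N - 1, by omega⟩
    have hn3 : 3 ≤ n := by omega
    have hv2 : 2 ≤ gr r n := by
      have := gr_mono r (by omega) hn3
      rwa [gr_three r hr] at this
    rw [gr_succ r (by omega) n (by omega)]
    split_ifs with hc
    · rcases hc with hc | hc
      · rcases (show n + 1 - r = 0 ∨ n + 1 - r = 1 ∨ n + 1 - r = 2 ∨ 3 ≤ n + 1 - r by omega)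
          with hp | hp | hp | hp
        · rw [hp, gr_zero] at hc; omega
        · rw [hp, gr_one] at hc; omega
        · rw [hp, gr_two] at hc
          rw [hc]
          have e3 : W r (gr r) (2 + 1) = W r (gr r) 3 := rfl
          omega
        · have h1 := ih (n + 1 - r) (by omega) hp
          rw [← hc] at h1
          have h2 := W_succ r (gr r) (gr r n)
          have h3 := gr_sub r (by omega) (gr r n + 1)
          omega
      · exact le_of_eq hc.2
    · have := ih n (by omega) hn3
      omega

/-- The minimality clause in the literal form `there is no m with a(n-1) ≤ m < a(n) and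
a(m + a(n-1) + ... + a(n-r+1)) = n` holds for the greedy sequence for every `n ≥ 3`
(it fails for `n = 2`, where `a(1 + a(1)) = a(2) = 2`). -/
theorem grZ_literal (r : ℕ) (hr : 2 ≤ r) (n : ℤ) (hn : 3 ≤ n) :
    ¬ ∃ m : ℤ, grZ r (n - 1) ≤ m ∧ m < grZ r n ∧
      grZ r (m + ∑ i ∈ Finset.range (r - 1), grZ r (n - 1 - (i : ℤ))) = n := by
  rintro ⟨m, h1, h2, h3⟩
  obtain ⟨k, rfl⟩ : ∃ k : ℕ, n = k + 1 := ⟨(n - 1).toNat, by omega⟩
  have hk : 2 ≤ k := by omega
  have e1 : grZ r ((k : ℤ) + 1 - 1) = gr r k := by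
    unfold grZ
    congr 2
    omega
  have e2 : grZ r ((k : ℤ) + 1) = gr r (k + 1) := by
    unfold grZ
    congr 2
  rw [e1] at h1
  rw [e2] at h2
  have hstep := (gr_step r (by omega) k).2
  have hm : m = (gr r (k + 1) : ℤ) - 1 := by omega
  have hwin : win r (grZ r) ((k : ℤ) + 1) = grZ r ((k : ℤ) + 1) +
      ∑ i ∈ Finset.range (r - 1), grZ r ((k : ℤ) + 1 - 1 - (i : ℤ)) := by
    unfold win
    obtain ⟨s, rfl⟩ : ∃ s, r = s + 1 := ⟨r - 1, by omega⟩
    rw [Finset.sum_range_succ']
    simp only [Nat.cast_add, Nat.cast_one, Nat.cast_zero, sub_zero, Nat.add_sub_cancel]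
    rw [add_comm]
    congr 1
    refine Finset.sum_congr rfl (fun i _ => ?_)
    congr 1
    ring
  have hw := win_grZ r (k + 1)
  push_cast at hw
  rw [hwin, e2] at hw
  have e3 : m + ∑ i ∈ Finset.range (r - 1), grZ r ((k : ℤ) + 1 - 1 - (i : ℤ)) =
      ((W r (gr r) (k + 1) - 1 : ℕ) : ℤ) := by
    have hpos : k + 1 ≤ W r (gr r) (k + 1) := (gr_W_strict r hr).le_apply
    rw [Nat.cast_sub (by omega)]
    push_cast
    omega
  rw [e3] at h3
  unfold grZ at h3
  rw [Int.toNat_natCast] at h3
  have h3' : gr r (W r (gr r) (k + 1) - 1) = k + 1 := by exact_mod_cast h3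
  have hpos : k + 1 ≤ W r (gr r) (k + 1) := (gr_W_strict r hr).le_apply
  have hW3 : 4 ≤ W r (gr r) (k + 1) := by
    have h5 : W r (gr r) 3 ≤ W r (gr r) (k + 1) := (gr_W_strict r hr).monotone (by omega)
    have h6 := (gr_inv r hr 2 (by omega)).2.1
    have h7 := (gr_inv r hr 3 (by omega)).2.1
    rw [gr_three r hr] at h7
    norm_num at h7
    omega
  have h4 := gr_W_le r hr (W r (gr r) (k + 1) - 1) (by omega)
  rw [h3'] at h4
  omega

/-- Sanity check: the first terms for `r = 2`. -/
theorem gr_two_values :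
    (List.range 13).map (gr 2) = [0, 1, 2, 2, 3, 4, 4, 5, 6, 7, 7, 8, 8] := by
  decide

/-- Two greedy solutions agree. -/
theorem greedy_unique (r : ℕ) (a b : ℤ → ℤ) (ha : IsSolution r a) (ha' : IsGreedy r a)
    (hb : IsSolution r b) (hb' : IsGreedy r b) : a = b := by
  have key : ∀ N : ℕ, ∀ n : ℤ, n ≤ N → a n = b n := by
    intro N
    induction N with
    | zero =>
      intro n hn
      rw [ha.zero n (by simpa using hn), hb.zero n (by simpa using hn)]
    | succ N ih =>
      intro n hn
      rcases le_or_gt n N with h | h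
      · exact ih n h
      · have h1 : n = (N : ℤ) + 1 := by push_cast at hn; omega
        subst h1
        apply le_antisymm
        · exact ha' b hb _ (fun m hm => (ih m (by omega)).symm)
        · exact hb' a ha _ (fun m hm => ih m (by omega))
  funext n
  exact key n.toNat n (by omega)

end Pool.Agent.Helper9.AlmostGolomb
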