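import Mathlib

set_option autoImplicit false
open Filter Topology

namespace Pool.Agent.Helper9

/-- If `t n = c n + 1 / t (n+1)` with all later tails `> 1`, then the partial denominators of
`t 0` are the `c (i+1)`. -/
theorem partDens_of_tails (t : ℕ → ℝ) (c : ℕ → ℕ) (h1 : ∀ n, 1 < t (n + 1))
    (h : ∀ n, t n = (c n : ℝ) + 1 / t (n + 1)) (i : ℕ) :
    (GenContFract.of (t 0)).partDens.get? i = some ((c (i + 1) : ℕ) : ℝ) := by
  have hfl : ∀ n, ⌊t n⌋ = (c n : ℤ) := by
    intro n
    rw [Int.floor_eq_iff]
    have hp := h1 n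
    have : 1 / t (n + 1) < 1 := by
      rw [div_lt_one (by linarith)]; exact hp
    have h2 : 0 < 1 / t (n + 1) := by positivity
    rw [h n]
    push_cast
    constructor <;> linarith
  have hfr : ∀ n, Int.fract (t n) = 1 / t (n + 1) := by
    intro n
    rw [Int.fract, hfl n]
    have := h n
    push_cast
    linarith
  have hfr0 : ∀ n, Int.fract (t n) ≠ 0 := by
    intro n
    rw [hfr n]
    have := h1 n
    positivity
  have hs : ∀ n, GenContFract.IntFractPair.stream (t 0) n =
      some (GenContFract.IntFractPair.of (t n)) := by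
    intro n
    induction n with
    | zero => rfl
    | succ n ih =>
      rw [GenContFract.IntFractPair.stream_succ_of_some ih (hfr0 n)]
      congr 2
      change (Int.fract (t n))⁻¹ = t (n + 1)
      rw [hfr n]
      simp
  have := GenContFract.get?_of_eq_some_of_succ_get?_intFractPair_stream (hs (i + 1))
  have h3 : ((GenContFract.IntFractPair.of (t (i + 1))).b : ℝ) = ((c (i + 1) : ℕ) : ℝ) := by
    change ((⌊t (i + 1)⌋ : ℤ) : ℝ) = _
    rw [hfl (i + 1)]
    simp
  rw [h3] at this
  simp only [GenContFract.partDens, Stream'.Seq.map_get?, this, Option.map_some]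

/-- Every sequence of positive integers is the sequence of continued fraction digits of some
real number, with explicit tails. -/
theorem exists_tails (c : ℕ → ℕ) (hc : ∀ n, 1 ≤ c n) :
    ∃ t : ℕ → ℝ, (∀ n, 1 < t n) ∧ ∀ n, t n = (c n : ℝ) + 1 / t (n + 1) := by
  let K : Set (ℕ → ℝ) := Set.univ.pi (fun n => Set.Icc (c n : ℝ) (c n + 1))
  have hK : IsCompact K := isCompact_univ_pi (fun n => isCompact_Icc)
  let C : ℕ → Set (ℕ → ℝ) := fun N =>
    K ∩ {t | ∀ n < N, t n * t (n + 1) = (c n : ℝ) * t (n + 1) + 1}
  have hclosed : ∀ N, IsClosed (C N) := by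
    intro N
    refine hK.isClosed.inter ?_
    have : {t : ℕ → ℝ | ∀ n < N, t n * t (n + 1) = (c n : ℝ) * t (n + 1) + 1} =
        ⋂ n : ℕ, ⋂ (_ : n < N), {t : ℕ → ℝ | t n * t (n + 1) = (c n : ℝ) * t (n + 1) + 1} := by
      ext t; simp
    rw [this]
    refine isClosed_iInter (fun n => isClosed_iInter (fun _ => ?_))
    exact isClosed_eq (by fun_prop) (by fun_prop)
  have hmono : ∀ N, C (N + 1) ⊆ C N := by
    intro N t ht
    exact ⟨ht.1, fun n hn => ht.2 n (Nat.lt_succ_of_lt hn)⟩
  have hne : ∀ N, (C N).Nonempty := by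
    intro N
    -- build tails backwards from position N
    have : ∀ M : ℕ, ∃ t : ℕ → ℝ, (∀ n, (c n : ℝ) ≤ t n ∧ t n ≤ c n + 1) ∧
        ∀ n, N - M ≤ n → n < N → t n * t (n + 1) = (c n : ℝ) * t (n + 1) + 1 := by
      intro M
      induction M with
      | zero =>
        refine ⟨fun n => c n, fun n => ⟨le_refl _, by linarith⟩, fun n h1 h2 => ?_⟩
        omega
      | succ M ih =>
        obtain ⟨t, ht1, ht2⟩ := ih
        by_cases hM : N ≤ M
        · exact ⟨t, ht1, fun n h1 h2 => ht2 n (by omega) h2⟩
        · have hpos : ∀ n, (1:ℝ) ≤ t n := by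
            intro n
            have := (ht1 n).1
            have h2 : (1:ℝ) ≤ (c n : ℝ) := by exact_mod_cast hc n
            linarith
          refine ⟨Function.update t (N - (M + 1)) (c (N - (M+1)) + 1 / t (N - (M + 1) + 1)),
            fun n => ?_, fun n h1 h2 => ?_⟩
          · by_cases hn : n = N - (M + 1)
            · subst hn
              rw [Function.update_self]
              have h3 := hpos (N - (M + 1) + 1)
              have h4 : 1 / t (N - (M + 1) + 1) ≤ 1 := by
                rw [div_le_one (by linarith)]; exact h3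
              have h5 : 0 ≤ 1 / t (N - (M + 1) + 1) := by positivity
              constructor <;> linarith
            · rw [Function.update_of_ne hn]
              exact ht1 n
          · by_cases hn : n = N - (M + 1)
            · subst hn
              rw [Function.update_self, Function.update_of_ne (by omega)]
              have h3 := hpos (N - (M + 1) + 1)
              field_simp
            · rw [Function.update_of_ne hn, Function.update_of_ne (by omega)]
              exact ht2 n (by omega) h2
    obtain ⟨t, ht1, ht2⟩ := this N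
    refine ⟨t, ?_, fun n hn => ht2 n (by omega) hn⟩
    intro n _
    exact ⟨(ht1 n).1, (ht1 n).2⟩
  have hcomp : IsCompact (C 0) := hK.of_isClosed_subset (hclosed 0) Set.inter_subset_left
  obtain ⟨t, ht⟩ := IsCompact.nonempty_iInter_of_sequence_nonempty_isCompact_isClosed C
    hmono hne hcomp hclosed
  rw [Set.mem_iInter] at ht
  have hlow : ∀ n, (c n : ℝ) ≤ t n := fun n => ((ht 0).1 n (Set.mem_univ n)).1
  have hc1 : ∀ n, (1:ℝ) ≤ (c n : ℝ) := fun n => by exact_mod_cast hc n
  have heq : ∀ n, t n = (c n : ℝ) + 1 / t (n + 1) := by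
    intro n
    have h1 := (ht (n + 1)).2 n (Nat.lt_succ_self n)
    have h2 : 0 < t (n + 1) := by linarith [hlow (n + 1), hc1 (n + 1)]
    field_simp
    linarith
  refine ⟨t, fun n => ?_, heq⟩
  have h2 : 0 < t (n + 1) := by linarith [hlow (n + 1), hc1 (n + 1)]
  have h3 : 0 < 1 / t (n + 1) := by positivity
  rw [heq n]
  linarith [hc1 n]

end Pool.Agent.Helper9
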