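import Mathlib

set_option autoImplicit false
open Filter Topology

namespace Pool.Agent.Helper9

/-- Gauss-Kuzmin weights (value `0` at `k = 0`). -/
noncomputable def gk (k : ℕ) : ℝ := Real.logb 2 (1 + 1 / ((k : ℝ) * ((k : ℝ) + 2)))

theorem gk_zero : gk 0 = 0 := by simp [gk]

theorem gk_nonneg (k : ℕ) : 0 ≤ gk k := by
  unfold gk
  apply Real.logb_nonneg (by norm_num)
  have : (0:ℝ) ≤ 1 / ((k : ℝ) * ((k : ℝ) + 2)) := by positivity
  linarith

theorem gk_partial (K : ℕ) : ∑ k ∈ Finset.range (K + 1), gk k =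
    Real.logb 2 (2 * ((K : ℝ) + 1) / ((K : ℝ) + 2)) := by
  induction K with
  | zero => simp [gk_zero]
  | succ K ih =>
    rw [Finset.sum_range_succ, ih]
    unfold gk
    have h1 : (0:ℝ) < (K : ℝ) + 1 := by positivity
    have h2 : (0:ℝ) < (K : ℝ) + 2 := by positivity
    have h3 : (0:ℝ) < (K : ℝ) + 3 := by positivity
    rw [← Real.logb_mul (by positivity) (by push_cast; positivity)]
    congr 1
    push_cast
    field_simp
    ring

theorem gk_hasSum : HasSum gk 1 := by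
  rw [hasSum_iff_tendsto_nat_of_nonneg gk_nonneg]
  rw [← tendsto_add_atTop_iff_nat 1]
  have h : Tendsto (fun K : ℕ => Real.logb 2 (2 * ((K : ℝ) + 1) / ((K : ℝ) + 2))) atTop
      (𝓝 (Real.logb 2 2)) := by
    have h1 : Tendsto (fun K : ℕ => (2 * ((K : ℝ) + 1) / ((K : ℝ) + 2))) atTop (𝓝 2) := by
      have h2 : Tendsto (fun K : ℕ => (2:ℝ) - 2 / ((K : ℝ) + 2)) atTop (𝓝 (2 - 0)) := by
        refine tendsto_const_nhds.sub ?_
        refine Tendsto.div_atTop tendsto_const_nhds ?_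
        exact tendsto_atTop_add_const_right _ _ tendsto_natCast_atTop_atTop
      rw [sub_zero] at h2
      refine h2.congr (fun K => ?_)
      have : (0:ℝ) < (K : ℝ) + 2 := by positivity
      field_simp
      ring
    exact (Real.continuousAt_logb (by norm_num)).tendsto.comp h1
  rw [Real.logb_self_eq_one (by norm_num)] at h
  exact h.congr (fun K => (gk_partial K).symm)

/-- rational lower bounds for `logb 2` -/
theorem le_logb_two (a b : ℕ) (hb : 0 < b) (x : ℝ) (_hx : 0 < x) (h : (2:ℝ) ^ a ≤ x ^ b) :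
    (a : ℝ) / b ≤ Real.logb 2 x := by
  rw [div_le_iff₀ (by exact_mod_cast hb)]
  have h1 : Real.logb 2 ((2:ℝ) ^ a) ≤ Real.logb 2 (x ^ b) :=
    Real.logb_le_logb_of_le (by norm_num) (by positivity) h
  rw [Real.logb_pow, Real.logb_pow, Real.logb_self_eq_one (by norm_num), mul_one] at h1
  linarith

theorem gk_one : (2:ℝ) / 5 ≤ gk 1 := by
  have := le_logb_two 2 5 (by norm_num) (1 + 1 / (((1:ℕ) : ℝ) * (((1:ℕ) : ℝ) + 2)))
    (by norm_num) (by norm_num)
  unfold gk
  exact_mod_cast this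

theorem gk_one' : (1:ℝ) / 3 < gk 1 := by
  have := gk_one
  linarith

theorem gk_two : (4:ℝ) / 25 ≤ gk 2 := by
  have := le_logb_two 4 25 (by norm_num) (1 + 1 / (((2:ℕ) : ℝ) * (((2:ℕ) : ℝ) + 2)))
    (by norm_num) (by norm_num)
  unfold gk
  exact_mod_cast this

theorem gk_four : (1:ℝ) / 25 ≤ gk 4 := by
  have := le_logb_two 1 25 (by norm_num) (1 + 1 / (((4:ℕ) : ℝ) * (((4:ℕ) : ℝ) + 2)))
    (by norm_num) (by norm_num)
  unfold gk
  exact_mod_cast this

end Pool.Agent.Helper9
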