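import Mathlib

set_option autoImplicit false
open Filter Topology MeasureTheory ProbabilityTheory

namespace Pool.Agent.Helper9

/-- Existence of a sequence of naturals with prescribed digit frequencies. -/
theorem exists_seq_freq (p : ℕ → ℝ) (h0 : ∀ k, 0 ≤ p k) (h1 : HasSum p 1) :
    ∃ a : ℕ → ℕ, ∀ k, Tendsto
      (fun n : ℕ => (((Finset.range n).filter (fun i => a i = k)).card : ℝ) / (n : ℝ))
      atTop (𝓝 (p k)) := by
  classical
  have hE : HasSum (fun k => ENNReal.ofReal (p k)) 1 := by
    have := ENNReal.ofReal_tsum_of_nonneg h0 h1.summable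
    rw [h1.tsum_eq, ENNReal.ofReal_one] at this
    rw [this]
    exact ENNReal.summable.hasSum
  let P : PMF ℕ := ⟨fun k => ENNReal.ofReal (p k), hE⟩
  let ν : Measure ℕ := P.toMeasure
  have : IsProbabilityMeasure ν := PMF.toMeasure.isProbabilityMeasure P
  let μ : Measure (ℕ → ℕ) := Measure.infinitePi (fun _ : ℕ => ν)
  have key : ∀ k : ℕ, ∀ᵐ ω ∂μ, Tendsto
      (fun n : ℕ => (∑ i ∈ Finset.range n, (if ω i = k then (1:ℝ) else 0)) / (n : ℝ))
      atTop (𝓝 (p k)) := by
    intro k
    let g : ℕ → ℝ := fun m => if m = k then (1:ℝ) else 0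
    have hg : Measurable g := measurable_of_countable g
    let X : ℕ → (ℕ → ℕ) → ℝ := fun i ω => g (ω i)
    have hX : ∀ i, Measurable (X i) := fun i => hg.comp (measurable_pi_apply i)
    have hint : Integrable (X 0) μ := by
      refine Integrable.of_bound (hX 0).aestronglyMeasurable 1 ?_
      refine Eventually.of_forall (fun ω => ?_)
      simp only [X, g]
      split_ifs <;> simp
    have hindep : Pairwise (Function.onFun (fun f g => IndepFun f g μ) X) := by
      intro i j hij
      exact (iIndepFun_infinitePi (P := fun _ : ℕ => ν) (X := fun _ : ℕ => g)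
        (fun _ => hg)).indepFun hij
    have hident : ∀ i, IdentDistrib (X i) (X 0) μ μ := by
      intro i
      refine ⟨(hX i).aemeasurable, (hX 0).aemeasurable, ?_⟩
      have e : ∀ i, μ.map (X i) = ν.map g := by
        intro i
        have : X i = g ∘ (Function.eval i) := rfl
        rw [this, ← Measure.map_map hg (measurable_pi_apply i)]
        congr 1
        exact Measure.infinitePi_map_eval (fun _ : ℕ => ν) i
      rw [e i, e 0]
    have hsl := strong_law_ae_real X hint hindep hident
    have hE0 : ∫ ω, X 0 ω ∂μ = p k := by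
      have : X 0 = g ∘ (Function.eval 0) := rfl
      have e1 : ∫ ω, X 0 ω ∂μ = ∫ m, g m ∂(μ.map (Function.eval 0)) := by
        rw [integral_map (measurable_pi_apply 0).aemeasurable hg.aestronglyMeasurable]
      have e2 : μ.map (Function.eval 0) = ν :=
        Measure.infinitePi_map_eval (fun _ : ℕ => ν) 0
      rw [e1, e2]
      have e3 : g = Set.indicator {k} (fun _ => (1:ℝ)) := by
        funext m
        simp only [g, Set.indicator_apply, Set.mem_singleton_iff]
      rw [e3, integral_indicator (measurableSet_singleton k)]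
      simp only [integral_const, smul_eq_mul, mul_one]
      rw [Measure.real, Measure.restrict_apply MeasurableSet.univ, Set.univ_inter]
      rw [PMF.toMeasure_apply_singleton P k (measurableSet_singleton k)]
      exact ENNReal.toReal_ofReal (h0 k)
    rw [hE0] at hsl
    exact hsl
  have hall : ∀ᵐ ω ∂μ, ∀ k : ℕ, Tendsto
      (fun n : ℕ => (∑ i ∈ Finset.range n, (if ω i = k then (1:ℝ) else 0)) / (n : ℝ))
      atTop (𝓝 (p k)) := ae_all_iff.mpr key
  obtain ⟨ω, hω⟩ := hall.exists
  refine ⟨ω, fun k => ?_⟩
  have := hω k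
  refine this.congr (fun n => ?_)
  congr 1
  rw [Finset.card_filter]
  push_cast
  rfl

end Pool.Agent.Helper9
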